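import Pool.Agent.J4H15.NE.Orbit

set_option autoImplicit false

/-!
# No exceptions, or at least `c x ^ 4`
-/

namespace Pool.Agent.J4H15.NE

open MvPolynomial Pool.Agent.TH167 Pool.Agent.TH167.SH Pool.Agent.R355.NegOrb
open Pool.Agent.W609.CR (Ord Van aff wcr VS)
open Pool.Agent.TH167.TT (exists_ord exists_mem)
open Pool.Agent.Results.MP_d3e5c7_ag.SeparatedOrbits
  (reflect Move Carries dot toCls comb V V_at V_off sum_V translate nine nine_pos)
open Pool.Agent.Results.MP_d3e5c7_ag.ZeroOrManyCurves (lattice)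

/-- An injection of nine indices with given first two values, and a point outside. -/
theorem exists_inj {n : ℕ} {i j : Fin n} (hij : i ≠ j) (a b : Fin n) (hab : a ≠ b) :
    ∃ σ : Equiv.Perm (Fin n), σ a = i ∧ σ b = j := by
  refine ⟨(Equiv.swap a i).trans (Equiv.swap ((Equiv.swap a i) b) j), ?_, ?_⟩
  · rw [Equiv.trans_apply, Equiv.swap_apply_left]
    refine Equiv.swap_apply_of_ne_of_ne ?_ hij
    intro h
    have h2 : (Equiv.swap a i) a = i := Equiv.swap_apply_left _ _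
    exact hab ((Equiv.swap a i).injective (h2.trans h))
  · rw [Equiv.trans_apply, Equiv.swap_apply_left]

/-- A standard class with `3 d ≤` the sum of any nine multiplicities. -/
theorem const_of {n : ℕ} (hn : 10 ≤ n) {d : ℕ} {w : Fin n → ℕ} (hred : Reduced d w)
    (h : ∀ ν : Fin 9 → Fin n, Function.Injective ν → 3 * d ≤ ∑ k, w (ν k)) :
    ∃ m, d = 3 * m ∧ ∀ j, w j = m := by
  have key : ∀ i j : Fin n, i ≠ j → w i = w j ∧ d = 3 * w i := by
    intro i j hij
    obtain ⟨σ, h0, h1⟩ := exists_inj hij (⟨0, by omega⟩ : Fin n) ⟨1, by omega⟩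
      (by simp [Fin.ext_iff])
    obtain ⟨ν, hν⟩ : ∃ ν : Fin 9 → Fin n, ν = fun k => σ (Fin.castLE (by omega) k) := ⟨_, rfl⟩
    have hνi : Function.Injective ν := by
      rw [hν]
      intro a b hab
      exact Fin.castLE_injective _ (σ.injective hab)
    have hν0 : ν 0 = i := by rw [hν, ← h0]; rfl
    have hν1 : ν 1 = j := by rw [hν, ← h1]; rfl
    have hs := h ν hνi
    have ht : ∀ a b c : Fin 9, a ≠ b → a ≠ c → b ≠ c → w (ν a) + w (ν b) + w (ν c) ≤ d :=
      fun a b c h1 h2 h3 => hred _ _ _ (fun h => h1 (hνi h)) (fun h => h2 (hνi h))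
        (fun h => h3 (hνi h))
    have t1 := ht 0 2 3 (by decide) (by decide) (by decide)
    have t2 := ht 1 4 5 (by decide) (by decide) (by decide)
    have t3 := ht 6 7 8 (by decide) (by decide) (by decide)
    have t4 := ht 1 2 3 (by decide) (by decide) (by decide)
    have t5 := ht 0 4 5 (by decide) (by decide) (by decide)
    have t6 := ht 2 1 3 (by decide) (by decide) (by decide)
    have t7 := ht 0 1 3 (by decide) (by decide) (by decide)
    have t8 := ht 0 1 2 (by decide) (by decide) (by decide)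
    have t9 := ht 2 4 5 (by decide) (by decide) (by decide)
    have t10 := ht 3 4 5 (by decide) (by decide) (by decide)
    have hsum : ∑ k, w (ν k) = w (ν 0) + w (ν 1) + w (ν 2) + w (ν 3) + w (ν 4) + w (ν 5) +
        w (ν 6) + w (ν 7) + w (ν 8) := by
      rw [Fin.sum_univ_castSucc, Fin.sum_univ_eight]
      rfl
    rw [hsum] at hs
    rw [← hν0, ← hν1]
    constructor <;> omega
  have h01 := key ⟨0, by omega⟩ ⟨1, by omega⟩ (by simp [Fin.ext_iff])
  refine ⟨w ⟨0, by omega⟩, h01.2, fun j => ?_⟩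
  by_cases hj : j = ⟨0, by omega⟩
  · rw [hj]
  · exact (key _ _ hj).1

/-- There are no curves of degree `3 m` with multiplicity `m ≥ 1` at ten or more points. -/
theorem empty_mK {r : ℕ} (h10 : 10 ≤ r + 4) {P : Fin (r + 4) → Fin 2 → ℂ}
    (hP : AlgebraicIndependent ℚ (fun ij : Fin (r + 4) × Fin 2 => P ij.1 ij.2)) {m : ℕ}
    (hm : 1 ≤ m) {f : MvPolynomial (Fin 3) ℂ} (hf : f ≠ 0)
    (hfm : f ∈ VS (fun j => aff (P j)) (fun _ => m) (3 * m)) : False := by
  have hf' := (mem_VS _ _ _ _).1 hfm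
  choose v hv using fun j => exists_ord (p := P j) hf hf'.1
  have hvm : ∀ j, m ≤ v j := by
    intro j
    by_contra hlt
    push Not at hlt
    exact (hv j).2 (van_mono (by omega) (hf'.2 j))
  have hnu : ¬ IsUnit f := by
    intro h
    have h1 := (MvPolynomial.isUnit_iff_totalDegree_of_isReduced.1 h).2
    rw [hf'.1.totalDegree hf] at h1
    omega
  obtain ⟨G, hG, h, hfac⟩ := WfDvdMonoid.exists_irreducible_factor hnu hf
  have hh0 : h ≠ 0 := fun h0 => hf (by rw [hfac, h0, mul_zero])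
  have hGe := Pool.Agent.Chud.homog_of_dvd hf'.1 hf (Dvd.intro _ hfac.symm)
  have hhe := Pool.Agent.Chud.homog_of_dvd hf'.1 hf (Dvd.intro_left _ hfac.symm)
  obtain ⟨e, he⟩ : ∃ e, e = G.totalDegree := ⟨_, rfl⟩
  obtain ⟨b, hb⟩ : ∃ b, b = h.totalDegree := ⟨_, rfl⟩
  rw [← he] at hGe
  rw [← hb] at hhe
  choose u hu using fun j => exists_ord (p := P j) hG.ne_zero hGe
  choose t ht using fun j => exists_ord (p := P j) hh0 hhe
  have hdeg : 3 * m = e + b := by
    have h1 := hGe.mul hhe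
    rw [← hfac] at h1
    exact (h1.inj_right hf'.1 hf).symm
  have hvut : ∀ j, v j = u j + t j := by
    intro j
    have h2 := ord_mul (hu j) (ht j)
    rw [← hfac] at h2
    exact ord_unique (hv j) h2
  have hall : ∀ ν : Fin 9 → Fin (r + 4), Function.Injective ν → ∑ k, (u (ν k) : ℤ) = 3 * e := by
    intro ν hν
    have h1 := nine_all hP hG.ne_zero hGe hu hν
    have h2 := nine_all hP hh0 hhe ht hν
    have h3 : ∑ k : Fin 9, (m : ℤ) ≤ ∑ k, ((u (ν k) : ℤ) + (t (ν k) : ℤ)) := by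
      refine Finset.sum_le_sum fun k _ => ?_
      have h4 := hvm (ν k)
      rw [hvut] at h4
      exact_mod_cast h4
    rw [Finset.sum_add_distrib, Finset.sum_const, Finset.card_univ, Fintype.card_fin,
      nsmul_eq_mul] at h3
    have h4 : (3 * (m : ℤ)) = e + b := by exact_mod_cast hdeg
    push_cast at h3
    linarith
  have huc : ∀ i j : Fin (r + 4), i ≠ j → u i = u j := by
    intro i j hij
    obtain ⟨σ, h0, h9⟩ := exists_inj hij (⟨0, by omega⟩ : Fin (r + 4)) ⟨9, by omega⟩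
      (by simp [Fin.ext_iff])
    obtain ⟨ν, hν⟩ : ∃ ν : Fin 9 → Fin (r + 4), ν = fun k => σ (Fin.castLE (by omega) k) :=
      ⟨_, rfl⟩
    have hνi : Function.Injective ν := by
      rw [hν]
      intro a b hab
      exact Fin.castLE_injective _ (σ.injective hab)
    have hν0 : ν 0 = i := by rw [hν, ← h0]; rfl
    have hνj : ∀ k, ν k ≠ j := by
      intro k hk
      rw [hν, ← h9] at hk
      have h1 := σ.injective hk
      have h2 := congrArg Fin.val h1
      simp only [Fin.val_castLE] at h2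
      have := k.2
      omega
    have a1 := hall ν hνi
    have a2 := hall (fun k => Equiv.swap i j (ν k)) ((Equiv.swap i j).injective.comp hνi)
    rw [Fin.sum_univ_succ] at a1 a2
    have a3 : ∀ k : Fin 8, Equiv.swap i j (ν k.succ) = ν k.succ := by
      intro k
      refine Equiv.swap_apply_of_ne_of_ne ?_ (hνj _)
      rw [← hν0]
      intro h
      exact absurd (hνi h) (Fin.succ_ne_zero k)
    simp only [a3] at a2
    rw [hν0, Equiv.swap_apply_left] at a2
    rw [hν0] at a1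
    have : (u i : ℤ) = u j := by linarith
    exact_mod_cast this
  obtain ⟨μ, hμ⟩ : ∃ μ, ∀ j, u j = μ := ⟨u ⟨0, by omega⟩, fun j => by
    by_cases hj : j = ⟨0, by omega⟩
    · rw [hj]
    · exact huc _ _ hj⟩
  obtain ⟨ν, hν⟩ : ∃ ν : Fin 9 → Fin (r + 4), Function.Injective ν :=
    ⟨Fin.castLE (by omega), Fin.castLE_injective _⟩
  have he3 := hall ν hν
  simp only [hμ, Finset.sum_const, Finset.card_univ, Fintype.card_fin, nsmul_eq_mul] at he3
  have he0 : 0 < e := Pool.Agent.W609.CR.deg_pos hG hGe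
  have hμ0 : (0 : ℤ) < μ := by
    push_cast at he3
    have : (0 : ℤ) < e := by exact_mod_cast he0
    linarith
  have hr : (10 : ℤ) ≤ ((r + 4 : ℕ) : ℤ) := by exact_mod_cast h10
  have hkk : kk e u = 3 * e - ((r + 4 : ℕ) : ℤ) * μ := by
    unfold kk
    simp only [hμ, Finset.sum_const, Finset.card_univ, Fintype.card_fin, nsmul_eq_mul]
  have hip : ip e u e u = (e : ℤ) * e - ((r + 4 : ℕ) : ℤ) * (μ * μ) := by
    unfold ip
    simp only [hμ, Finset.sum_const, Finset.card_univ, Fintype.card_fin, nsmul_eq_mul]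
  have hkk' : kk e u < 0 := by
    rw [hkk]
    push_cast at he3
    nlinarith
  have hip' : ip e u e u < 0 := by
    rw [hip]
    push_cast at he3
    have : (e : ℤ) = 3 * μ := by linarith
    rw [this]
    nlinarith
  have hI : Irr P e u := ⟨⟨G, hG, hGe, hu⟩, fun h => by omega⟩
  have h1 := (nine_pos hP hI hip' hν (N := 3 * (e : ℤ) - ∑ k, (u (ν k) : ℤ)) rfl).1
  have h2 := hall ν hν
  omega

/-- The count of the classes in the orbit of the translations. -/
theorem many {s : ℕ} (Good : ℕ → (Fin s → ℕ) → Prop) {d : ℕ} {w : Fin s → ℕ} (hwd : ∀ l, w l ≤ d)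
    {ν : Fin 9 → Fin s} (hν : Function.Injective ν) {N : ℤ}
    (hN : N = 3 * (d : ℤ) - ∑ k, (w (ν k) : ℤ)) (hNpos : 0 < N)
    (hcarry : ∀ b, Carries (toCls d w) b → ∃ (e : ℕ) (u : Fin s → ℕ), b = toCls e u ∧ Good e u) :
    ∃ A : ℕ, 1 ≤ A ∧ ∀ x : ℕ, A ≤ x → ∃ S : Finset (ℕ × (Fin s → ℕ)),
      (∀ c ∈ S, Good c.1 c.2 ∧ c.1 ≤ x) ∧ x ^ 4 ≤ A ^ 4 * S.card := by
  classical
  obtain ⟨N', hN'⟩ : ∃ N' : ℕ, (N' : ℤ) = N := ⟨N.toNat, Int.toNat_of_nonneg hNpos.le⟩
  refine ⟨49 * d + 108 * N' + 1, by omega, fun x hx => ?_⟩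
  obtain ⟨A, hA⟩ : ∃ A, A = 49 * d + 108 * N' + 1 := ⟨_, rfl⟩
  rw [← hA] at hx ⊢
  have hA0 : 0 < A := by omega
  obtain ⟨R, hR⟩ : ∃ R, R = Nat.sqrt (x / A) := ⟨_, rfl⟩
  have hR1 : 1 ≤ R := by
    rw [hR, Nat.le_sqrt']
    exact (Nat.one_le_div_iff hA0).2 hx
  have hRx : A * R ^ 2 ≤ x := by
    have h1 : R ^ 2 ≤ x / A := by
      rw [hR]
      exact Nat.sqrt_le' _
    calc A * R ^ 2 ≤ A * (x / A) := Nat.mul_le_mul_left _ h1
      _ ≤ x := Nat.mul_div_le _ _
  have hRx' : x ≤ A * (R + 1) ^ 2 := by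
    have h1 : x / A < (R + 1) ^ 2 := by
      rw [hR]
      exact Nat.lt_succ_sqrt' _
    calc x ≤ A * (x / A + 1) := by
          have := Nat.div_add_mod x A
          have h2 := Nat.mod_lt x hA0
          rw [mul_add, mul_one]
          omega
      _ ≤ A * (R + 1) ^ 2 := Nat.mul_le_mul_left _ h1
  -- the vectors
  obtain ⟨vec, hvec⟩ : ∃ vec : (Fin 8 → Fin (R + 1)) → Fin 9 → ℤ, vec = fun g =>
      Fin.snoc (α := fun _ => ℤ) (fun k : Fin 8 => ((g k : ℕ) : ℤ)) (-∑ k : Fin 8, ((g k : ℕ) : ℤ)) := ⟨_, rfl⟩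
  have hv1 : ∀ g (k : Fin 8), vec g k.castSucc = ((g k : ℕ) : ℤ) := by
    intro g k
    rw [hvec]
    simp
  have hv2 : ∀ g, vec g (Fin.last 8) = -∑ k : Fin 8, ((g k : ℕ) : ℤ) := by
    intro g
    rw [hvec]
    exact Fin.snoc_last (α := fun _ => ℤ) _ _
  have hv0 : ∀ g, ∑ k, vec g k = 0 := by
    intro g
    rw [Fin.sum_univ_castSucc]
    simp only [hv1, hv2]
    ring
  have hcls : ∀ g : Fin 8 → Fin (R + 1), ∃ (q : ℤ) (e : ℕ) (u : Fin s → ℕ),
      2 * q = ∑ k, (2 * (w (ν k) : ℤ) * vec g k + N * vec g k ^ 2) ∧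
      comb (comb (toCls d w) N (0, V ν (vec g))) q (3, V ν fun _ => 1) = toCls e u ∧
      Good e u := by
    intro g
    obtain ⟨q, hq, hc⟩ := lattice hν (toCls d w) (N := N) hN _ (vec g) (hv0 g) le_rfl
    obtain ⟨e, u, h1, h2⟩ := hcarry _ hc
    exact ⟨q, e, u, hq, h1, h2⟩
  choose q e u hq hcl hgood using hcls
  have hinj : Function.Injective (fun g => ((e g, u g) : ℕ × (Fin s → ℕ))) := by
    intro g g' hgg
    have h1 : comb (comb (toCls d w) N (0, V ν (vec g))) (q g) (3, V ν fun _ => 1) =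
        comb (comb (toCls d w) N (0, V ν (vec g'))) (q g') (3, V ν fun _ => 1) := by
      rw [hcl g, hcl g']
      have h2 := congrArg Prod.fst hgg
      have h3 := congrArg Prod.snd hgg
      simp only at h2 h3
      rw [h2, h3]
    have h2 : ∀ k, N * vec g k + q g = N * vec g' k + q g' := by
      intro k
      have h3 := congrFun (congrArg Prod.snd h1) (ν k)
      unfold comb at h3
      simp only at h3
      rw [V_at hν, V_at hν, V_at hν] at h3
      linarith
    have h3 : q g = q g' := by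
      have h4 : ∑ k, (N * vec g k + q g) = ∑ k, (N * vec g' k + q g') :=
        Finset.sum_congr rfl fun k _ => h2 k
      rw [Finset.sum_add_distrib, Finset.sum_add_distrib, ← Finset.mul_sum, ← Finset.mul_sum, hv0,
        hv0] at h4
      simp only [Finset.sum_const, Finset.card_univ, Fintype.card_fin, nsmul_eq_mul] at h4
      push_cast at h4
      linarith
    funext k
    have h4 := h2 k.castSucc
    rw [h3, hv1, hv1] at h4
    have h5 : N * ((g k : ℕ) : ℤ) = N * ((g' k : ℕ) : ℤ) := by linarith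
    have h6 := mul_left_cancel₀ hNpos.ne' h5
    exact Fin.ext (by exact_mod_cast h6)
  refine ⟨Finset.univ.image (fun g => ((e g, u g) : ℕ × (Fin s → ℕ))), ?_, ?_⟩
  · intro c hc
    obtain ⟨g, -, rfl⟩ := Finset.mem_image.1 hc
    refine ⟨hgood g, ?_⟩
    · -- the degree
      show e g ≤ x
      have h1 := congrArg Prod.fst (hcl g)
      have h2 : (d : ℤ) + N * 0 + q g * 3 = (e g : ℤ) := h1
      have h3 : 2 * q g ≤ 32 * (d : ℤ) * R + 72 * N * (R : ℤ) ^ 2 := by
        rw [hq g, Fin.sum_univ_castSucc]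
        simp only [hv1, hv2]
        have h4 : ∀ k : Fin 8, 2 * (w (ν k.castSucc) : ℤ) * ((g k : ℕ) : ℤ) +
            N * ((g k : ℕ) : ℤ) ^ 2 ≤ 2 * (d : ℤ) * R + N * (R : ℤ) ^ 2 := by
          intro k
          have b1 : ((g k : ℕ) : ℤ) ≤ R := by exact_mod_cast Nat.lt_succ_iff.1 (g k).2
          have b2 : (0 : ℤ) ≤ ((g k : ℕ) : ℤ) := Int.natCast_nonneg _
          have b3 : ((w (ν k.castSucc) : ℕ) : ℤ) ≤ d := by exact_mod_cast hwd _
          have b4 : (0 : ℤ) ≤ ((w (ν k.castSucc) : ℕ) : ℤ) := Int.natCast_nonneg _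
          have b5 : ((w (ν k.castSucc) : ℕ) : ℤ) * ((g k : ℕ) : ℤ) ≤ d * R :=
            mul_le_mul b3 b1 b2 (Int.natCast_nonneg _)
          have b6 : ((g k : ℕ) : ℤ) ^ 2 ≤ (R : ℤ) ^ 2 := pow_le_pow_left₀ b2 b1 2
          have b7 := mul_le_mul_of_nonneg_left b6 hNpos.le
          linarith
        have h5 := Finset.sum_le_sum fun k (_ : k ∈ (Finset.univ : Finset (Fin 8))) => h4 k
        rw [Finset.sum_const, Finset.card_univ, Fintype.card_fin, nsmul_eq_mul] at h5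
        have h6 : (0 : ℤ) ≤ ∑ k : Fin 8, ((g k : ℕ) : ℤ) :=
          Finset.sum_nonneg fun k _ => Int.natCast_nonneg _
        have h7 : ∑ k : Fin 8, ((g k : ℕ) : ℤ) ≤ 8 * (R : ℤ) := by
          have h8 := Finset.sum_le_sum fun k (_ : k ∈ (Finset.univ : Finset (Fin 8))) =>
            (show ((g k : ℕ) : ℤ) ≤ R by exact_mod_cast Nat.lt_succ_iff.1 (g k).2)
          rw [Finset.sum_const, Finset.card_univ, Fintype.card_fin, nsmul_eq_mul] at h8
          exact_mod_cast h8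
        have h9' : (0 : ℤ) ≤ (w (ν (Fin.last 8)) : ℤ) := Int.natCast_nonneg _
        have h10 : 0 ≤ (w (ν (Fin.last 8)) : ℤ) * ∑ k : Fin 8, ((g k : ℕ) : ℤ) :=
          mul_nonneg h9' h6
        have h11 : (∑ k : Fin 8, ((g k : ℕ) : ℤ)) ^ 2 ≤ (8 * (R : ℤ)) ^ 2 :=
          pow_le_pow_left₀ h6 h7 2
        have h12 := mul_le_mul_of_nonneg_left h11 hNpos.le
        have h13 : (0 : ℤ) ≤ (d : ℤ) * R := mul_nonneg (Int.natCast_nonneg _) (Int.natCast_nonneg _)
        push_cast at h5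
        nlinarith
      have h4 : (1 : ℤ) ≤ R := by exact_mod_cast hR1
      have h5 : (R : ℤ) ≤ (R : ℤ) ^ 2 := by nlinarith
      have hd0 : (0 : ℤ) ≤ d := Int.natCast_nonneg _
      have h6 : (e g : ℤ) ≤ (49 * (d : ℤ) + 108 * N) * (R : ℤ) ^ 2 := by
        have h7 : (d : ℤ) * R ≤ d * (R : ℤ) ^ 2 := mul_le_mul_of_nonneg_left h5 hd0
        have h8 : (d : ℤ) ≤ d * (R : ℤ) ^ 2 := by nlinarith
        have h9 : 2 * (e g : ℤ) ≤ 2 * ((49 * (d : ℤ) + 108 * N) * (R : ℤ) ^ 2) := by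
          have e1 : 2 * (e g : ℤ) = 2 * d + 3 * (2 * q g) := by rw [← h2]; ring
          rw [e1]
          linarith
        linarith
      have h7 : (e g : ℤ) ≤ x := by
        have h8 : (49 * (d : ℤ) + 108 * N) * (R : ℤ) ^ 2 ≤ (A : ℤ) * (R : ℤ) ^ 2 := by
          refine mul_le_mul_of_nonneg_right ?_ (sq_nonneg _)
          rw [hA, ← hN']
          push_cast
          linarith
        have h9 : (A : ℤ) * (R : ℤ) ^ 2 ≤ x := by exact_mod_cast hRx
        linarith
      exact_mod_cast h7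
  · rw [Finset.card_image_of_injective _ hinj, Finset.card_univ, Fintype.card_fun, Fintype.card_fin,
      Fintype.card_fin]
    calc x ^ 4 ≤ (A * (R + 1) ^ 2) ^ 4 := Nat.pow_le_pow_left hRx' 4
      _ = A ^ 4 * (R + 1) ^ 8 := by ring

/-- The reduction to a standard class. -/
theorem reduce {r : ℕ} {P : Fin (r + 4) → Fin 2 → ℂ}
    (hP : AlgebraicIndependent ℚ (fun ij : Fin (r + 4) × Fin 2 => P ij.1 ij.2)) {d : ℕ}
    {w : Fin (r + 4) → ℕ} (hsp : Special P d w)
    (hge : ∀ (C : MvPolynomial (Fin 3) ℂ) (e : ℕ) (u : Fin (r + 4) → ℕ), Exc P C e u →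
      -1 ≤ ip d w e u) :
    ∃ (d1 : ℕ) (w1 : Fin (r + 4) → ℕ), Reduced d1 w1 ∧ Special P d1 w1 := by
  have hs := (special_iff P d w).1 hsp
  obtain ⟨M, hM⟩ : ∃ M, ∀ j, w j ≤ M := ⟨∑ j, w j, fun j =>
    Finset.single_le_sum (fun _ _ => Nat.zero_le _) (Finset.mem_univ j)⟩
  have hw : Few M d w := by
    left
    rw [Finset.filter_false_of_mem fun j _ => not_lt.2 (hM j)]
    simp
  obtain ⟨d', w', k, C0, e, u, N, hD, hdim, P1, d1, w1, hP1, hchain, hfew, hred, hdim1⟩ :=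
    main d P hP w hw hs.1
  have hDcp : Dcp P d w d' w' C0 e u N := ⟨hD.exc, hD.pos, hD.orth, hD.deg, hD.mul, hD.zero⟩
  have hN : ∀ a, N a < 2 := by
    intro a
    have h1 := hge _ _ _ (hD.exc a)
    rw [hDcp.neg a] at h1
    omega
  have h1 := hDcp.chi_one hN
  obtain ⟨c1, -, -⟩ := quad_inv hchain
  simp only at c1
  refine ⟨d1, w1, hred, ?_⟩
  rw [special_iff, dim_same hP hP1, hdim1, hdim, c1, ← h1]
  exact hs

theorem special_pos {s : ℕ} {P : Fin s → Fin 2 → ℂ} {d : ℕ} {w : Fin s → ℕ} (h : Special P d w)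
    (hw : ∀ j, w j ≤ d) : 0 < d := by
  rcases Nat.eq_zero_or_pos d with h0 | h0
  · exfalso
    subst h0
    have hw0 : w = fun _ => 0 := funext fun j => Nat.le_zero.1 (hw j)
    subst hw0
    have h1 := (special_iff P 0 _).1 h
    rw [vs_zero] at h1
    unfold SH.chi at h1
    simp at h1
  · exact h0

/-- **No exceptions, or at least `(x / A) ^ 4`.** -/
theorem none_or_many {r : ℕ} (h10 : 10 ≤ r + 4) {P : Fin (r + 4) → Fin 2 → ℂ}
    (hP : AlgebraicIndependent ℚ (fun ij : Fin (r + 4) × Fin 2 => P ij.1 ij.2)) {d : ℕ}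
    {w : Fin (r + 4) → ℕ} (hsp : Special P d w)
    (hge : ∀ (C : MvPolynomial (Fin 3) ℂ) (e : ℕ) (u : Fin (r + 4) → ℕ), Exc P C e u →
      -1 ≤ ip d w e u) :
    ∃ A : ℕ, 1 ≤ A ∧ ∀ x : ℕ, A ≤ x → ∃ S : Finset (ℕ × (Fin (r + 4) → ℕ)),
      (∀ c ∈ S, (0 < c.1 ∧ (∀ j, c.2 j ≤ c.1) ∧ Special P c.1 c.2 ∧
        ∀ (C : MvPolynomial (Fin 3) ℂ) (e : ℕ) (u : Fin (r + 4) → ℕ), Exc P C e u →
          0 ≤ ip c.1 c.2 e u) ∧ c.1 ≤ x) ∧ x ^ 4 ≤ A ^ 4 * S.card := by
  obtain ⟨d1, w1, hred, hs1⟩ := reduce hP hsp hge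
  have hnn : NN P d1 w1 := fun C e u hE => red_nef hred hE
  have hle : ∀ {d : ℕ} {w : Fin (r + 4) → ℕ}, NN P d w → ∀ j, w j ≤ d := by
    intro d w h j
    obtain ⟨i, hi⟩ : ∃ i : Fin (r + 4), j ≠ i := by
      by_cases hj : j = ⟨0, by omega⟩
      · exact ⟨⟨1, by omega⟩, by rw [hj]; simp [Fin.ext_iff]⟩
      · exact ⟨_, hj⟩
    have := h.pair hP hi
    omega
  obtain ⟨ν, hν, hpos⟩ : ∃ ν : Fin 9 → Fin (r + 4), Function.Injective ν ∧
      0 < 3 * (d1 : ℤ) - ∑ k, (w1 (ν k) : ℤ) := by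
    by_contra hcon
    push Not at hcon
    obtain ⟨m, hm1, hm2⟩ := const_of h10 hred fun ν hν => by
      have h1 := hcon ν hν
      have h2 : (3 * (d1 : ℤ)) ≤ ((∑ k, w1 (ν k) : ℕ) : ℤ) := by
        push_cast
        linarith
      exact_mod_cast h2
    have hm0 : 1 ≤ m := by
      have := special_pos hs1 (hle hnn)
      omega
    obtain ⟨f, hf, hf0⟩ := exists_mem ((special_iff P d1 w1).1 hs1).1
    rw [show w1 = fun _ => m from funext hm2, hm1] at hf
    exact empty_mK h10 hP hm0 hf0 hf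
  refine many (fun d w => 0 < d ∧ (∀ j, w j ≤ d) ∧ Special P d w ∧
      ∀ (C : MvPolynomial (Fin 3) ℂ) (e : ℕ) (u : Fin (r + 4) → ℕ), Exc P C e u →
        0 ≤ ip d w e u) (hle hnn) hν rfl hpos fun b hb => ?_
  obtain ⟨e, u, h1, h2⟩ := carry_st hP ⟨hnn, rfl, rfl⟩ hb
  have h3 : Special P e u := by
    rw [special_iff, h2.dim, h2.chi]
    exact (special_iff P d1 w1).1 hs1
  exact ⟨e, u, h1, special_pos h3 (hle h2.nn), hle h2.nn, h3, h2.nn⟩

end Pool.Agent.J4H15.NE
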