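import Pool.Agent.TH167.TT.Strict
import Pool.Agent.TH167.SH.Fam
import Pool.Agent.Results.MP_d3e5c7_ag.ZeroOrManyCurves

set_option autoImplicit false

/-!
# The orbit of an exception
-/

namespace Pool.Agent.J4H15.NE

open MvPolynomial Pool.Agent.TH167 Pool.Agent.TH167.SH Pool.Agent.R355.NegOrb
open Pool.Agent.W609.CR (Ord Van aff wcr VS)
open Pool.Agent.TH442.NF (cls refl Step refl_cls line_of)
open Pool.Agent.Results.MP_d3e5c7_ag.SeparatedOrbits
  (reflect Move Carries dot toCls comb V V_at V_off sum_V translate nine nine_pos)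

/-- The class meets all `(-1)`-curves nonnegatively. -/
def NN {s : ℕ} (P : Fin s → Fin 2 → ℂ) (d : ℕ) (w : Fin s → ℕ) : Prop :=
  ∀ (G : MvPolynomial (Fin 3) ℂ) (e : ℕ) (u : Fin s → ℕ), Exc P G e u → 0 ≤ ip d w e u

theorem NN.pair {s : ℕ} {P : Fin s → Fin 2 → ℂ}
    (hP : AlgebraicIndependent ℚ (fun ij : Fin s × Fin 2 => P ij.1 ij.2)) {d : ℕ} {w : Fin s → ℕ}
    (h : NN P d w) {i j : Fin s} (hij : i ≠ j) : w i + w j ≤ d := by
  have h1 := h _ _ _ (exc_line hP hij)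
  rw [ip_ind hij] at h1
  omega

theorem NN.ps {s : ℕ} {P : Fin s → Fin 2 → ℂ}
    (hP : AlgebraicIndependent ℚ (fun ij : Fin s × Fin 2 => P ij.1 ij.2)) {d : ℕ} {w : Fin s → ℕ}
    (h : NN P d w) {i : Fin 3 → Fin s} (hi : Function.Injective i) : PS i d w :=
  ⟨h.pair hP (ne10 hi).symm, h.pair hP (ne20 hi).symm, h.pair hP (ne21 hi).symm⟩

theorem NN.cr {s : ℕ} {P P' : Fin s → Fin 2 → ℂ}
    (hP : AlgebraicIndependent ℚ (fun ij : Fin s × Fin 2 => P ij.1 ij.2))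
    (hP' : AlgebraicIndependent ℚ (fun ij : Fin s × Fin 2 => P' ij.1 ij.2))
    {i : Fin 3 → Fin s} (hr : CRel P P' i) {d : ℕ} {w : Fin s → ℕ} (h : NN P d w) :
    NN P' (cd i d w) (wcr d i w) := by
  intro G e u hE
  have hi := hr.inj
  have p := h.ps hP hi
  by_cases q : PS i e u
  · obtain ⟨G', h1⟩ := hE.cr hr.symm q
    have h4 := h G' _ _ h1
    have h5 := ip_cr hi p (q.cr hi)
    rw [cd_cr hi q, wcr_cr hi q] at h5
    rw [h5]
    exact h4
  · have key : ∀ x y : Fin 3, x ≠ y → e < u (i x) + u (i y) →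
        0 ≤ ip (cd i d w) (wcr d i w) e u := by
      intro x y hxy hlt
      have hne : i x ≠ i y := fun h => hxy (hi h)
      obtain ⟨rfl, rfl⟩ := line_of hP' hE.irr hE.hom hE.ord hne hlt
      rw [ip_ind hne, cd_cast p, wcr_cast hi p, wcr_cast hi p]
      have hb : ∀ z : Fin 3, ic i (i z) = 1 := by
        intro z
        fin_cases z
        · exact (ic_base i).1
        · exact (ic_base i).2.1
        · exact (ic_base i).2.2
      rw [hb, hb]
      unfold dl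
      fin_cases x <;> fin_cases y <;> simp at hxy ⊢ <;> omega
    have hq : ¬ (u (i 0) + u (i 1) ≤ e ∧ u (i 0) + u (i 2) ≤ e ∧ u (i 1) + u (i 2) ≤ e) :=
      fun h => q ⟨h.1, h.2.1, h.2.2⟩
    by_cases c1 : u (i 0) + u (i 1) ≤ e
    · by_cases c2 : u (i 0) + u (i 2) ≤ e
      · by_cases c3 : u (i 1) + u (i 2) ≤ e
        · exact absurd ⟨c1, c2, c3⟩ hq
        · exact key 1 2 (by decide) (by omega)
      · exact key 0 2 (by decide) (by omega)
    · exact key 0 1 (by decide) (by omega)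

theorem NN.conj {s : ℕ} {P Q : Fin s → Fin 2 → ℂ}
    (hP : AlgebraicIndependent ℚ (fun ij : Fin s × Fin 2 => P ij.1 ij.2))
    (hQ : AlgebraicIndependent ℚ (fun ij : Fin s × Fin 2 => Q ij.1 ij.2)) {d : ℕ} {w : Fin s → ℕ}
    (h : NN P d w) : NN Q d w := by
  intro G e u hE
  obtain ⟨G', a1, a2, a3⟩ := exists_conj hQ hP hE.irr hE.hom hE.ord (Equiv.refl _)
  exact h G' e u ⟨a1, a2, a3, hE.self, hE.can⟩

theorem NN.perm {s : ℕ} {P : Fin s → Fin 2 → ℂ}
    (hP : AlgebraicIndependent ℚ (fun ij : Fin s × Fin 2 => P ij.1 ij.2)) {d : ℕ} {w : Fin s → ℕ}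
    (h : NN P d w) (σ : Equiv.Perm (Fin s)) : NN P d (fun l => w (σ l)) := by
  intro G e u hE
  obtain ⟨G', a1, a2, a3⟩ := exists_conj hP hP hE.irr hE.hom hE.ord σ.symm
  have h1 := h G' e (fun l => u (σ.symm l)) ⟨a1, a2, a3, by
    rw [Equiv.sum_comp σ.symm (fun l => u l ^ 2)]; exact hE.self, by
    rw [Equiv.sum_comp σ.symm (fun l => u l)]; exact hE.can⟩
  unfold ip at h1 ⊢
  have h2 := Equiv.sum_comp σ (fun l => (w l : ℤ) * (u (σ.symm l) : ℤ))
  simp only [Equiv.symm_apply_apply] at h2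
  rw [h2]
  exact h1

theorem dim_same {s : ℕ} {P Q : Fin s → Fin 2 → ℂ}
    (hP : AlgebraicIndependent ℚ (fun ij : Fin s × Fin 2 => P ij.1 ij.2))
    (hQ : AlgebraicIndependent ℚ (fun ij : Fin s × Fin 2 => Q ij.1 ij.2)) (d : ℕ)
    (w : Fin s → ℕ) : Module.finrank ℂ ↥(VS (fun j => aff (P j)) w d) =
      Module.finrank ℂ ↥(VS (fun j => aff (Q j)) w d) := by
  obtain ⟨g, F, hF, hg⟩ := dim_gen w d
  rw [hg ℂ P fun h0 => hF (hP.eq_zero_of_aeval_eq_zero F h0),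
    hg ℂ Q fun h0 => hF (hQ.eq_zero_of_aeval_eq_zero F h0)]

theorem dim_perm {s : ℕ} {P : Fin s → Fin 2 → ℂ}
    (hP : AlgebraicIndependent ℚ (fun ij : Fin s × Fin 2 => P ij.1 ij.2)) (d : ℕ)
    (w : Fin s → ℕ) (σ : Equiv.Perm (Fin s)) :
    Module.finrank ℂ ↥(VS (fun j => aff (P j)) (fun l => w (σ l)) d) =
      Module.finrank ℂ ↥(VS (fun j => aff (P j)) w d) := by
  obtain ⟨Q, hQ⟩ : ∃ Q : Fin s → Fin 2 → ℂ, Q = fun j => P (σ.symm j) := ⟨_, rfl⟩
  have hPσ : AlgebraicIndependent ℚ (fun ij : Fin s × Fin 2 => Q ij.1 ij.2) := by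
    rw [hQ]
    refine hP.comp (fun ij : Fin s × Fin 2 => (σ.symm ij.1, ij.2)) ?_
    intro a b h
    simp only [Prod.mk.injEq] at h
    exact Prod.ext (σ.symm.injective h.1) h.2
  rw [dim_same hP hPσ d w]
  have hQσ : ∀ j, Q (σ j) = P j := by
    intro j
    rw [hQ]
    simp only [Equiv.symm_apply_apply]
  have h : VS (fun j => aff (P j)) (fun l => w (σ l)) d = VS (fun j => aff (Q j)) w d := by
    ext f
    rw [mem_VS, mem_VS]
    refine and_congr Iff.rfl ⟨fun h j => ?_, fun h j => ?_⟩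
    · have h1 := h (σ.symm j)
      rw [Equiv.apply_symm_apply, ← hQσ, Equiv.apply_symm_apply] at h1
      exact h1
    · have h1 := h (σ j)
      rw [hQσ] at h1
      exact h1
  rw [h]

/-- The invariants of an exception. -/
structure St {s : ℕ} (P : Fin s → Fin 2 → ℂ) (g : ℕ) (χ : ℤ) (d : ℕ) (w : Fin s → ℕ) : Prop where
  nn : NN P d w
  dim : Module.finrank ℂ ↥(VS (fun j => aff (P j)) w d) = g
  chi : chi d w = χ

theorem carry_st {s : ℕ} {P : Fin s → Fin 2 → ℂ}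
    (hP : AlgebraicIndependent ℚ (fun ij : Fin s × Fin 2 => P ij.1 ij.2)) {g : ℕ} {χ : ℤ} {d : ℕ}
    {w : Fin s → ℕ} (h : St P g χ d w) {b : ℤ × (Fin s → ℤ)} (hb : Carries (toCls d w) b) :
    ∃ (e : ℕ) (u : Fin s → ℕ), b = toCls e u ∧ St P g χ e u := by
  unfold Carries at hb
  induction hb with
  | refl => exact ⟨d, w, rfl, h⟩
  | @tail b c _ hbc ih =>
    obtain ⟨e, u, rfl, h1, h2, h3⟩ := ih
    rcases hbc with ⟨i, hi, rfl⟩ | ⟨σ, rfl⟩
    · have p := h1.ps hP hi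
      obtain ⟨P', hP', hr⟩ := exists_crel hP hi
      refine ⟨cd i e u, wcr e i u, refl_cls hi p, (h1.cr hP hP' hr).conj hP' hP, ?_, ?_⟩
      · rw [dim_same hP hP', hr.dim p, h2]
      · rw [← h3]
        have h4 := two_chi (cd i e u) (wcr e i u)
        rw [ip_cr hi p p, kk_cr hi p, ← two_chi] at h4
        exact mul_left_cancel₀ two_ne_zero h4
    · refine ⟨e, fun l => u (σ l), rfl, h1.perm hP σ, ?_, ?_⟩
      · rw [dim_perm hP, h2]
      · rw [← h3]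
        unfold SH.chi
        rw [Equiv.sum_comp σ (fun l => ((u l + 1).choose 2 : ℤ))]

/-! ## The class of a multiple of the canonical class -/

theorem nine_nonneg {s : ℕ} {P : Fin s → Fin 2 → ℂ}
    (hP : AlgebraicIndependent ℚ (fun ij : Fin s × Fin 2 => P ij.1 ij.2))
    {G : MvPolynomial (Fin 3) ℂ} {e : ℕ} {u : Fin s → ℕ} (h1 : Irreducible G)
    (h2 : G.IsHomogeneous e) (h3 : ∀ j, Ord (aff (P j)) (u j) G) {ν : Fin 9 → Fin s}
    (hν : Function.Injective ν) : ∑ k, (u (ν k) : ℤ) ≤ 3 * e := by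
  classical
  by_cases hne : ip e u e u = -1 ∧ kk e u = 1
  · have h4 : ∑ k, (u (ν k) : ℤ) ≤ ∑ l, (u l : ℤ) := by
      have h5 : ∑ k, (u (ν k) : ℤ) = ∑ l ∈ Finset.univ.map ⟨ν, hν⟩, (u l : ℤ) := by
        rw [Finset.sum_map]
        rfl
      rw [h5]
      exact Finset.sum_le_sum_of_subset_of_nonneg (Finset.subset_univ _)
        fun l _ _ => Int.natCast_nonneg _
    have h5 := hne.2
    unfold kk at h5
    linarith
  · have h4 := (nine hP ⟨⟨G, h1, h2, h3⟩, hne⟩ hν (N := 3 * (e : ℤ) - ∑ k, (u (ν k) : ℤ)) rfl).1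
    linarith

/-- The indicator of nine points. -/
noncomputable def ind {s : ℕ} (ν : Fin 9 → Fin s) (l : Fin s) : ℕ := by
  classical exact if ∃ k, ν k = l then 1 else 0

theorem ip_nine {s : ℕ} {ν : Fin 9 → Fin s} (hν : Function.Injective ν) (e : ℕ) (u : Fin s → ℕ) :
    ip 3 (ind ν) e u = 3 * e - ∑ k, (u (ν k) : ℤ) := by
  classical
  unfold ip
  have h5 : ∑ k, (u (ν k) : ℤ) = ∑ l ∈ Finset.univ.map ⟨ν, hν⟩, (u l : ℤ) := by
    rw [Finset.sum_map]
    rfl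
  have h6 : ∑ l, (ind ν l : ℤ) * (u l : ℤ) = ∑ l ∈ Finset.univ.map ⟨ν, hν⟩, (u l : ℤ) := by
    rw [← Finset.sum_subset (Finset.subset_univ (Finset.univ.map ⟨ν, hν⟩))]
    · refine Finset.sum_congr rfl fun l hl => ?_
      obtain ⟨k, -, hk⟩ := Finset.mem_map.1 hl
      unfold ind
      rw [if_pos ⟨k, hk⟩]
      simp
    · intro l _ hl
      unfold ind
      rw [if_neg]
      · simp
      · rintro ⟨k, hk⟩
        exact hl (Finset.mem_map.2 ⟨k, Finset.mem_univ _, hk⟩)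
  rw [h6, h5]
  push_cast
  ring

theorem nine_all {r : ℕ} {P : Fin (r + 4) → Fin 2 → ℂ}
    (hP : AlgebraicIndependent ℚ (fun ij : Fin (r + 4) × Fin 2 => P ij.1 ij.2))
    {f : MvPolynomial (Fin 3) ℂ} (hf : f ≠ 0) {e : ℕ} {u : Fin (r + 4) → ℕ}
    (h2 : f.IsHomogeneous e) (h3 : ∀ j, Ord (aff (P j)) (u j) f) {ν : Fin 9 → Fin (r + 4)}
    (hν : Function.Injective ν) : ∑ k, (u (ν k) : ℤ) ≤ 3 * e := by
  have h := Pool.Agent.TH167.TT.nef_self (d := 3) (w := ind ν) (P := P) (fun G e u a1 a2 a3 => by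
    rw [ip_nine hν]
    have := nine_nonneg hP a1 a2 a3 hν
    linarith) hf e u h2 h3
  rw [ip_nine hν] at h
  linarith

end Pool.Agent.J4H15.NE
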