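import Pool.Agent.R355.NegCount

set_option autoImplicit false

/-!
# One bad negative curve: a positive proportion of exceptions
-/

namespace Pool.Agent.J4H15.NE

open MvPolynomial Pool.Agent.TH167.SH Pool.Agent.W609.CR

/-- Multiplication by a power of a curve. -/
theorem finrank_mul {s : ℕ} {P : Fin s → Fin 2 → ℂ} {G : MvPolynomial (Fin 3) ℂ} {d : ℕ}
    {w : Fin s → ℕ} (h0 : G ≠ 0) (h1 : G.IsHomogeneous d) (h2 : ∀ j, Van (aff (P j)) (w j) G)
    (n e : ℕ) (u : Fin s → ℕ) :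
    Module.finrank ℂ ↥(VS (fun j => aff (P j)) u e) ≤
      Module.finrank ℂ ↥(VS (fun j => aff (P j)) (fun j => n * w j + u j) (n * d + e)) := by
  have hinj : Function.Injective (LinearMap.mulLeft ℂ (G ^ n)) := by
    intro a b hab
    rw [LinearMap.mulLeft_apply, LinearMap.mulLeft_apply] at hab
    exact mul_left_cancel₀ (pow_ne_zero _ h0) hab
  rw [LinearEquiv.finrank_eq (Submodule.equivMapOfInjective _ hinj _)]
  have hf := vs_fin (fun j => aff (P j)) (fun j => n * w j + u j) (n * d + e)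
  refine Submodule.finrank_mono ?_
  rintro _ ⟨g, hg, rfl⟩
  have hg' : g ∈ VS (fun j => aff (P j)) u e := hg
  rw [mem_VS] at hg' ⊢
  rw [LinearMap.mulLeft_apply]
  constructor
  · have h3 := h1.pow n
    rw [mul_comm] at h3
    exact h3.mul hg'.1
  · intro j
    exact van_mul (van_pow (h2 j) n) (hg'.2 j)

theorem ip_lin {s : ℕ} (n d e : ℕ) (w u : Fin s → ℕ) (f : ℕ) (v : Fin s → ℕ) :
    ip (n * d + e) (fun j => n * w j + u j) f v = n * ip d w f v + ip e u f v := by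
  unfold ip
  have h : ∀ j, (((n * w j + u j : ℕ) : ℤ)) * v j = n * ((w j : ℤ) * v j) + (u j : ℤ) * v j := by
    intro j
    push_cast
    ring
  rw [Finset.sum_congr rfl fun j _ => h j, Finset.sum_add_distrib, ← Finset.mul_sum]
  push_cast
  ring

theorem kk_lin {s : ℕ} (n d e : ℕ) (w u : Fin s → ℕ) :
    kk (n * d + e) (fun j => n * w j + u j) = n * kk d w + kk e u := by
  unfold kk
  have h : ∀ j, (((n * w j + u j : ℕ) : ℤ)) = n * (w j : ℤ) + (u j : ℤ) := by
    intro j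
    push_cast
    ring
  rw [Finset.sum_congr rfl fun j _ => h j, Finset.sum_add_distrib, ← Finset.mul_sum]
  push_cast
  ring

theorem ip_symm {s : ℕ} (d : ℕ) (w : Fin s → ℕ) (e : ℕ) (u : Fin s → ℕ) :
    ip d w e u = ip e u d w := by
  unfold ip
  rw [Finset.sum_congr rfl fun j _ => mul_comm ((w j : ℤ)) (u j : ℤ)]
  ring

theorem chi_lin {s : ℕ} (n d e : ℕ) (w u : Fin s → ℕ) :
    2 * chi (n * d + e) (fun j => n * w j + u j) =
      2 * chi e u + n * (2 * ip e u d w + n * ip d w d w + kk d w) := by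
  rw [two_chi, two_chi, ip_lin, kk_lin, ip_symm d w (n * d + e), ip_lin,
    ip_symm e u (n * d + e), ip_lin, ip_symm d w e u]
  ring

theorem sum_le_card {s : ℕ} (f : Fin s → ℤ) (c : ℤ) (h : ∀ j, f j ≤ c) : ∑ j, f j ≤ s * c := by
  have h1 := Finset.sum_le_sum fun j (_ : j ∈ (Finset.univ : Finset (Fin s))) => h j
  rw [Finset.sum_const, Finset.card_univ, Fintype.card_fin, nsmul_eq_mul] at h1
  exact h1

/-- The exceptions near a bad negative curve. -/
theorem exception {s : ℕ} (hs : 1 ≤ s) {P : Fin s → Fin 2 → ℂ} (hP : Function.Injective P)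
    {G : MvPolynomial (Fin 3) ℂ} {d : ℕ} {w : Fin s → ℕ} (hG : Irreducible G)
    (hGd : G.IsHomogeneous d) (hGo : ∀ j, Ord (aff (P j)) (w j) G)
    (hne : ¬ (ip d w d w = -1 ∧ kk d w = 1)) (hneg : ip d w d w < 0) {m : ℕ} (hm : 1 ≤ m)
    {a : ℕ} (ha : a = (2 * ((s + 1) ^ 2 + 1) + 3) * d + 1) {δ₀ : ℕ} {δ : Fin s → ℕ} (h₀ : δ₀ ≤ m)
    (hδ : ∀ j, δ j ≤ m) :
    Special P (m * (s + 1) * a * d + (m * (s + 1) ^ 2 + δ₀))
      (fun j => m * (s + 1) * a * w j + (m * (s + 1) + δ j)) ∧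
    ∀ (C : MvPolynomial (Fin 3) ℂ) (e : ℕ) (u : Fin s → ℕ), Exc P C e u →
      0 ≤ ip (m * (s + 1) * a * d + (m * (s + 1) ^ 2 + δ₀))
        (fun j => m * (s + 1) * a * w j + (m * (s + 1) + δ j)) e u := by
  obtain ⟨n, hn⟩ : ∃ n, n = m * (s + 1) * a := ⟨_, rfl⟩
  rw [← hn]
  have hm' : (1 : ℤ) ≤ m := by exact_mod_cast hm
  have hs' : (1 : ℤ) ≤ s := by exact_mod_cast hs
  have hd0 : (0 : ℤ) ≤ d := Int.natCast_nonneg _
  have hδ0 : (0 : ℤ) ≤ δ₀ := Int.natCast_nonneg _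
  have h₀' : (δ₀ : ℤ) ≤ m := by exact_mod_cast h₀
  have hδ' : ∀ j, (δ j : ℤ) ≤ m := fun j => by exact_mod_cast hδ j
  constructor
  · rw [special_iff]
    have h1 := finrank_mul (P := P) hG.ne_zero hGd (fun j => (hGo j).1) n
      (m * (s + 1) ^ 2 + δ₀) (fun j => m * (s + 1) + δ j)
    have h2 := chi_le_dim P (m * (s + 1) ^ 2 + δ₀) (fun j => m * (s + 1) + δ j)
    have h3 : 1 ≤ chi (m * (s + 1) ^ 2 + δ₀) (fun j => m * (s + 1) + δ j) := by
      have h4 := two_chi (m * (s + 1) ^ 2 + δ₀) (fun j => m * (s + 1) + δ j)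
      have h5 : ∑ j, (((m * (s + 1) + δ j : ℕ) : ℤ)) ≤ s * (m * (s + 2)) := by
        refine sum_le_card _ _ fun j => ?_
        push_cast
        have := hδ' j
        linarith
      have h6 : ∑ j, (((m * (s + 1) + δ j : ℕ) : ℤ)) * ((m * (s + 1) + δ j : ℕ) : ℤ) ≤
          s * (m * (s + 2)) ^ 2 := by
        refine sum_le_card _ _ fun j => ?_
        rw [← pow_two]
        refine pow_le_pow_left₀ (Int.natCast_nonneg _) ?_ 2
        push_cast
        have := hδ' j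
        linarith
      unfold ip kk at h4
      obtain ⟨X, hX⟩ : ∃ X : ℤ, X = ((m * (s + 1) ^ 2 + δ₀ : ℕ) : ℤ) := ⟨_, rfl⟩
      rw [← hX] at h4
      have hX1 : (m : ℤ) * (s + 1) ^ 2 ≤ X := by
        rw [hX]
        push_cast
        linarith
      have e1 : ((m : ℤ) * (s + 1) ^ 2) ^ 2 ≤ X * X := by
        rw [← pow_two]
        exact pow_le_pow_left₀ (by positivity) hX1 2
      have e2 : ((m : ℤ) * (s + 1) ^ 2) ^ 2 - (s * (m * (s + 2)) ^ 2 + m ^ 2) =
          m ^ 2 * (s ^ 4 + 3 * s ^ 3 + 2 * s ^ 2) := by ring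
      have e3 : (0 : ℤ) ≤ (m : ℤ) ^ 2 * (s ^ 4 + 3 * s ^ 3 + 2 * s ^ 2) := by positivity
      have e4 : (1 : ℤ) ≤ (m : ℤ) ^ 2 := one_le_pow₀ hm'
      have e5 : 3 * ((m : ℤ) * (s + 1) ^ 2) - s * (m * (s + 2)) =
          m * (2 * s ^ 2 + 4 * s + 3) := by ring
      have e6 : (0 : ℤ) ≤ (m : ℤ) * (2 * s ^ 2 + 4 * s + 3) := by positivity
      linarith
    have h4 : chi (n * d + (m * (s + 1) ^ 2 + δ₀)) (fun j => n * w j + (m * (s + 1) + δ j)) <
        chi (m * (s + 1) ^ 2 + δ₀) (fun j => m * (s + 1) + δ j) := by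
      have h5 := chi_lin n d (m * (s + 1) ^ 2 + δ₀) w (fun j => m * (s + 1) + δ j)
      have h6 : ip (m * (s + 1) ^ 2 + δ₀) (fun j => m * (s + 1) + δ j) d w ≤
          (m * (s + 1) ^ 2 + m) * d := by
        unfold ip
        have h7 : (0 : ℤ) ≤ ∑ j, (((m * (s + 1) + δ j : ℕ) : ℤ)) * w j :=
          Finset.sum_nonneg fun j _ => by positivity
        have h8 : ((m * (s + 1) ^ 2 + δ₀ : ℕ) : ℤ) * d ≤ (m * (s + 1) ^ 2 + m) * d := by
          refine mul_le_mul_of_nonneg_right ?_ hd0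
          push_cast
          linarith
        linarith
      have h7 : kk d w ≤ 3 * d := by
        unfold kk
        have : (0 : ℤ) ≤ ∑ j, (w j : ℤ) := Finset.sum_nonneg fun j _ => by positivity
        linarith
      have h8 : (n : ℤ) * ip d w d w ≤ -n := by
        have : (n : ℤ) * ip d w d w ≤ n * (-1) :=
          mul_le_mul_of_nonneg_left (by omega) (Int.natCast_nonneg _)
        linarith
      have h9 : (m : ℤ) * ((2 * ((s + 1) ^ 2 + 1) + 3) * d + 1) ≤ n := by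
        rw [hn, ha]
        push_cast
        have e1 : (0 : ℤ) ≤ (m : ℤ) * s * ((2 * ((s + 1) ^ 2 + 1) + 3) * d + 1) := by positivity
        linarith
      have h10 : 2 * ip (m * (s + 1) ^ 2 + δ₀) (fun j => m * (s + 1) + δ j) d w +
          n * ip d w d w + kk d w < 0 := by
        have e1 : (m : ℤ) * ((2 * ((s + 1) ^ 2 + 1) + 3) * d + 1) =
          2 * ((m * (s + 1) ^ 2 + m) * d) + 3 * (m * d) + m := by ring
        have e2 : (d : ℤ) ≤ m * d := by nlinarith
        linarith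
      have h11 : (0 : ℤ) < n := by
        have e1 : (0 : ℤ) < (m : ℤ) * ((2 * ((s + 1) ^ 2 + 1) + 3) * d + 1) := by positivity
        linarith
      have h12 := mul_neg_of_pos_of_neg h11 h10
      linarith
    constructor
    · omega
    · omega
  · intro C e u hE
    have h1 : 0 ≤ ip d w e u := by
      refine Pool.Agent.R355.NegCount.ip_nonneg hP hE.irr hE.hom hE.ord hG hGd hGo ?_
      intro h
      have h2 := congrArg Prod.fst h
      have h3 := congrArg Prod.snd h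
      simp only at h2 h3
      subst h2
      subst h3
      exact hne ⟨self_iff.1 hE.self, can_iff.1 hE.can⟩
    rw [ip_lin]
    have h2 : 0 ≤ ip (m * (s + 1) ^ 2 + δ₀) (fun j => m * (s + 1) + δ j) e u := by
      unfold ip
      have h3 : ∑ j, (((m * (s + 1) + δ j : ℕ) : ℤ)) * u j ≤ s * (m * (s + 2) * e) := by
        refine sum_le_card _ _ fun j => ?_
        have h4 : (u j : ℤ) ≤ e := by exact_mod_cast van_le hE.irr.ne_zero hE.hom (hE.ord j).1
        refine mul_le_mul ?_ h4 (Int.natCast_nonneg _) (by positivity)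
        push_cast
        have := hδ' j
        linarith
      have h5 : ((m : ℤ) * (s + 1) ^ 2) * e ≤ ((m * (s + 1) ^ 2 + δ₀ : ℕ) : ℤ) * e := by
        refine mul_le_mul_of_nonneg_right ?_ (Int.natCast_nonneg _)
        push_cast
        linarith
      have h6 : (0 : ℤ) ≤ (m : ℤ) * e := by positivity
      have h7 : ((m : ℤ) * (s + 1) ^ 2) * e - s * (m * (s + 2) * e) = m * e := by ring
      linarith
    have h3 : 0 ≤ (n : ℤ) * ip d w e u := mul_nonneg (Int.natCast_nonneg _) h1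
    linarith

/-- **A positive proportion.** -/
theorem positive {s : ℕ} (hs : 1 ≤ s) {P : Fin s → Fin 2 → ℂ} (hP : Function.Injective P)
    {G : MvPolynomial (Fin 3) ℂ} {d : ℕ} {w : Fin s → ℕ} (hG : Irreducible G)
    (hGd : G.IsHomogeneous d) (hGo : ∀ j, Ord (aff (P j)) (w j) G)
    (hne : ¬ (ip d w d w = -1 ∧ kk d w = 1)) (hneg : ip d w d w < 0) :
    ∃ A : ℕ, 1 ≤ A ∧ ∀ x : ℕ, A ≤ x → ∃ S : Finset (ℕ × (Fin s → ℕ)),
      (∀ c ∈ S, 0 < c.1 ∧ c.1 ≤ x ∧ (∀ j, c.2 j ≤ c.1) ∧ Special P c.1 c.2 ∧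
        ∀ (C : MvPolynomial (Fin 3) ℂ) (e : ℕ) (u : Fin s → ℕ), Exc P C e u →
          0 ≤ ip c.1 c.2 e u) ∧ x ^ (s + 1) ≤ A * S.card := by
  classical
  obtain ⟨a, ha⟩ : ∃ a, a = (2 * ((s + 1) ^ 2 + 1) + 3) * d + 1 := ⟨_, rfl⟩
  obtain ⟨D, hD⟩ : ∃ D, D = (s + 1) * (a * d + (s + 1)) + 1 := ⟨_, rfl⟩
  have hD1 : 1 ≤ D := by omega
  have hwd : ∀ j, w j ≤ d := fun j => van_le hG.ne_zero hGd (hGo j).1
  refine ⟨(2 * D) ^ (s + 1), Nat.one_le_pow _ _ (by omega), fun x hx => ?_⟩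
  obtain ⟨m, hm⟩ : ∃ m, m = x / D := ⟨_, rfl⟩
  have hDx : D ≤ x := by
    refine le_trans ?_ hx
    calc D ≤ 2 * D := by omega
      _ = (2 * D) ^ 1 := (pow_one _).symm
      _ ≤ (2 * D) ^ (s + 1) := Nat.pow_le_pow_right (by omega) (by omega)
  have hm1 : 1 ≤ m := by
    rw [hm]
    exact (Nat.one_le_div_iff (by omega)).2 hDx
  have hmx : m * D ≤ x := by
    rw [hm]
    exact Nat.div_mul_le_self _ _
  have hxm : x ≤ 2 * D * m := by
    have h1 := Nat.div_add_mod x D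
    have h2 := Nat.mod_lt x (show 0 < D by omega)
    rw [← hm] at h1
    have h3 : D * 1 ≤ D * m := Nat.mul_le_mul_left _ hm1
    nlinarith
  obtain ⟨f, hf⟩ : ∃ f : Fin m × (Fin s → Fin m) → ℕ × (Fin s → ℕ), f = fun g =>
      (m * (s + 1) * a * d + (m * (s + 1) ^ 2 + (g.1 : ℕ)),
        fun j => m * (s + 1) * a * w j + (m * (s + 1) + (g.2 j : ℕ))) := ⟨_, rfl⟩
  have hinj : Function.Injective f := by
    intro g g' h
    rw [hf] at h
    simp only [Prod.mk.injEq] at h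
    obtain ⟨h1, h2⟩ := h
    refine Prod.ext (Fin.ext (by omega)) ?_
    funext j
    have h3 := congrFun h2 j
    exact Fin.ext (by omega)
  refine ⟨Finset.univ.image f, ?_, ?_⟩
  · intro c hc
    obtain ⟨g, -, rfl⟩ := Finset.mem_image.1 hc
    obtain ⟨h1, h2⟩ := exception hs hP hG hGd hGo hne hneg hm1 ha (δ₀ := (g.1 : ℕ))
      (δ := fun j => (g.2 j : ℕ)) g.1.2.le (fun j => (g.2 j).2.le)
    rw [hf]
    simp only
    refine ⟨?_, ?_, fun j => ?_, h1, h2⟩
    · have : 0 < m * (s + 1) ^ 2 := by positivity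
      omega
    · have h3 := g.1.2
      have h4 : m * (s + 1) * a * d + m * (s + 1) ^ 2 + m = m * D := by
        rw [hD]
        ring
      omega
    · have h3 : m * (s + 1) * a * w j ≤ m * (s + 1) * a * d := Nat.mul_le_mul_left _ (hwd j)
      have h4 := (g.2 j).2
      have h5 : m * (s + 1) + m ≤ m * (s + 1) ^ 2 := by
        calc m * (s + 1) + m = m * (s + 2) := by ring
          _ ≤ m * (s + 1) ^ 2 := Nat.mul_le_mul_left _ (by nlinarith)
      omega
  · rw [Finset.card_image_of_injective _ hinj, Finset.card_univ, Fintype.card_prod,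
      Fintype.card_fun, Fintype.card_fin, Fintype.card_fin]
    calc x ^ (s + 1) ≤ (2 * D * m) ^ (s + 1) := Nat.pow_le_pow_left hxm _
      _ = (2 * D) ^ (s + 1) * (m * m ^ s) := by rw [mul_pow, pow_succ m s]; ring

end Pool.Agent.J4H15.NE
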